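import Pool.Agent.H97.RL.Targets
import Pool.Agent.H70.RKS.CN2

/-! Board rlm, row CN4 (helper12). -/

set_option autoImplicit false

namespace Pool.Agent.H12.RLM

open Finset Pool.Agent.H97.RK Pool.Agent.H97.RL Pool.Agent.H70.RKS

theorem two_pow_le {n q : ℕ} {D : Finset (Fin n)} (hD : D.card ≤ q) : 2 ^ D.card ≤ bl n q := by
  rw [← card_powerset]
  refine (card_le_card fun E hE => ?_).trans (card_ball n q)
  unfold ball
  rw [mem_filter]
  exact ⟨mem_univ _, (card_le_card (mem_powerset.1 hE)).trans hD⟩

/-- functions which obey a local rule up to `q` exceptions -/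
theorem count_gen {T : Type} [Fintype T] [DecidableEq T] (hT : Fintype.card T = 8) (n q : ℕ)
    (B : Fin n → Finset T) (hB : ∀ v, 4 ≤ (B v).card) (X : Finset (Fin n → T))
    (hX : ∀ τ ∈ X, (univ.filter fun v => τ v ∉ B v).card ≤ q) :
    X.card ≤ (∏ v, (B v).card) * bl n q ^ 2 := by
  have h1 : X ⊆ (ball n q).biUnion fun D =>
      Fintype.piFinset fun v => if v ∈ D then (univ : Finset T) else B v := by
    intro τ hτ
    rw [mem_biUnion]
    refine ⟨univ.filter fun v => τ v ∉ B v, ?_, ?_⟩
    · unfold ball
      rw [mem_filter]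
      exact ⟨mem_univ _, hX τ hτ⟩
    · rw [Fintype.mem_piFinset]
      intro v
      by_cases h : τ v ∈ B v
      · rw [if_neg]
        · exact h
        · intro h2
          exact (mem_filter.1 h2).2 h
      · have h2 : v ∈ univ.filter fun v => τ v ∉ B v := mem_filter.2 ⟨mem_univ v, h⟩
        rw [if_pos h2]
        exact mem_univ _
  have h2 : ∀ D ∈ ball n q, (Fintype.piFinset fun v => if v ∈ D then (univ : Finset T)
      else B v).card ≤ (∏ v, (B v).card) * bl n q := by
    intro D hD
    unfold ball at hD
    rw [mem_filter] at hD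
    rw [Fintype.card_piFinset]
    have h3 : ∀ v : Fin n, (if v ∈ D then (univ : Finset T) else B v).card ≤
        (B v).card * (if v ∈ D then 2 else 1) := by
      intro v
      by_cases h : v ∈ D
      · rw [if_pos h, if_pos h, card_univ, hT]
        have := hB v
        omega
      · rw [if_neg h, if_neg h, mul_one]
    refine (Finset.prod_le_prod' fun v _ => h3 v).trans ?_
    rw [Finset.prod_mul_distrib]
    refine Nat.mul_le_mul_left _ ?_
    rw [Finset.prod_ite, Finset.prod_const, Finset.prod_const_one, mul_one]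
    have h4 : (univ.filter fun v => v ∈ D) = D := by
      ext v
      simp
    rw [h4]
    exact two_pow_le hD.2
  calc X.card ≤ _ := card_le_card h1
    _ ≤ (ball n q).card * ((∏ v, (B v).card) * bl n q) := card_biUnion_le_card_mul _ _ _ h2
    _ ≤ bl n q * ((∏ v, (B v).card) * bl n q) := Nat.mul_le_mul_right _ (card_ball n q)
    _ = (∏ v, (B v).card) * bl n q ^ 2 := by ring

/-- the code of a triple -/
def code {n : ℕ} (p : (Fin n → Bool) × (Fin n → Bool) × Finset (Fin n)) (v : Fin n) :
    Bool × Bool × Bool := (p.1 v, p.2.1 v, decide (v ∈ p.2.2))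

theorem code_inj {n : ℕ} : Function.Injective (code (n := n)) := by
  rintro ⟨x, z, A⟩ ⟨x', z', A'⟩ h
  have h1 : ∀ v, x v = x' v ∧ z v = z' v ∧ decide (v ∈ A) = decide (v ∈ A') := by
    intro v
    have h2 := congrFun h v
    unfold code at h2
    exact ⟨congrArg Prod.fst h2, congrArg (fun t => t.2.1) h2, congrArg (fun t => t.2.2) h2⟩
  have hx : x = x' := funext fun v => (h1 v).1
  have hz : z = z' := funext fun v => (h1 v).2.1
  have hA : A = A' := by
    ext v
    exact decide_eq_decide.1 (h1 v).2.2
  rw [hx, hz, hA]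

theorem pf_CN4 : T_CN4 := by
  classical
  intro n q C
  set X := (univ : Finset ((Fin n → Bool) × (Fin n → Bool) × Finset (Fin n))).filter fun p =>
      ∃ P, Ser C P q p.1 p.2.1 p.2.2 with hX
  let R : Bool → Finset (Bool × Bool × Bool) := fun b => univ.filter fun t => t.2.2 = true → t.1 = b
  have hR : ∀ b, (R b).card = 6 := by
    intro b
    cases b <;> decide
  let B : Fin n → Finset (Bool × Bool × Bool) := fun v =>
    if v ∈ vs C then R (decide ((v, false) ∈ C)) else univ
  have hBc : ∀ v, (B v).card = if v ∈ vs C then 6 else 8 := by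
    intro v
    by_cases h : v ∈ vs C
    · simp only [B]
      rw [if_pos h, if_pos h, hR]
    · simp only [B]
      rw [if_neg h, if_neg h]
      decide
  have h1 : (X.image code).card ≤ (∏ v, (B v).card) * bl n q ^ 2 := by
    refine count_gen (by decide) n q B (fun v => ?_) _ fun τ hτ => ?_
    · rw [hBc]
      split_ifs <;> norm_num
    · obtain ⟨⟨x, z, A⟩, hp, rfl⟩ := mem_image.1 hτ
      rw [hX, mem_filter] at hp
      obtain ⟨-, P, y, hy, D, hD, hs⟩ := hp
      refine (card_le_card (t := D) fun v hv => ?_).trans hD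
      by_contra hvD
      refine (mem_filter.1 hv).2 ?_
      by_cases hvC : v ∈ vs C
      · simp only [B]
        rw [if_pos hvC]
        refine mem_filter.2 ⟨mem_univ _, fun h3 => ?_⟩
        have h4 : v ∈ A := of_decide_eq_true h3
        rw [← fals_val hy hvC]
        exact (hs v hvD).1 hvC h4
      · simp only [B]
        rw [if_neg hvC]
        exact mem_univ _
  rw [card_image_of_injective _ code_inj] at h1
  have h2 : ∏ v, (B v).card = 6 ^ (vs C).card * 8 ^ (n - (vs C).card) := by
    rw [Finset.prod_congr rfl fun v _ => hBc v, Finset.prod_ite, Finset.prod_const,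
      Finset.prod_const]
    have h3 : (univ.filter fun v => v ∈ vs C) = vs C := by
      ext v
      simp
    have h4 : (univ.filter fun v => v ∉ vs C) = (vs C)ᶜ := by
      ext v
      simp
    rw [h3, h4, card_compl, Fintype.card_fin]
  rw [h2] at h1
  exact h1

end Pool.Agent.H12.RLM
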